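import Pool.Agent.H6.N4D.TC

/-!
# Row FRQ: frequencies whose multiples have the same distance to the integers
-/

set_option autoImplicit false

open Finset Pool.Agent.H6.N4D

namespace Pool.Agent.H38.N4D

/-- the function `nd` is affine near a point whose double is not near an integer -/
lemma frq_aff {y g ζ : ℝ} (hg : |g| ≤ 3 * ζ) (hy : 6 * ζ < nd (2 * y))
    (h : |nd (y + g) - nd y| ≤ ζ) : |g| ≤ ζ := by
  set k := round y with hk
  set r := y - k with hr
  have hr2 : |r| ≤ 1 / 2 := abs_sub_round y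
  have h1 : nd y = |r| := rfl
  have h2 : nd (2 * y) = nd (2 * r) := by
    rw [show 2 * y = 2 * r + ((2 * k : ℤ) : ℝ) by rw [hr]; push_cast; ring, nd_add_int]
  have h3 : 6 * ζ < 2 * |r| := by
    have := nd_le_abs (2 * r)
    rw [abs_mul, abs_two] at this
    linarith
  have h4 : 6 * ζ < 1 - 2 * |r| := by
    rcases le_total 0 r with h0 | h0
    · have := nd_le (2 * r) 1
      rw [abs_of_nonneg h0] at hr2 ⊢
      push_cast at this
      rw [abs_of_nonpos (by linarith)] at this
      linarith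
    · have := nd_le (2 * r) (-1)
      rw [abs_of_nonpos h0] at hr2 ⊢
      push_cast at this
      rw [abs_of_nonneg (by linarith)] at this
      linarith
  have h5 : nd (y + g) = |r + g| := by
    rw [show y + g = (r + g) + (k : ℝ) by rw [hr]; ring, nd_add_int]
    apply nd_eq_abs
    exact (abs_add_le _ _).trans (by linarith)
  rw [h5, h1] at h
  rw [abs_le] at hg
  rcases le_total 0 r with h0 | h0
  · rw [abs_of_nonneg h0] at h h3
    rw [abs_of_nonneg (a := r + g) (by linarith)] at h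
    simpa using h
  · rw [abs_of_nonpos h0] at h h3
    rw [abs_of_nonpos (a := r + g) (by linarith)] at h
    rw [show -(r + g) - -r = -g by ring, abs_neg] at h
    exact h

lemma frq_sgn (r : ℝ) : ∃ s : ℤ, (s = 1 ∨ s = -1) ∧ r = s * |r| := by
  rcases le_total 0 r with h | h
  · exact ⟨1, Or.inl rfl, by rw [abs_of_nonneg h]; simp⟩
  · exact ⟨-1, Or.inr rfl, by rw [abs_of_nonpos h]; push_cast; ring⟩

theorem pf_FRQ : T_FRQ := by
  intro α α' ζ m hζ h2 hm hq
  obtain ⟨s1, hs1, hr1⟩ := frq_sgn (α - round α)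
  obtain ⟨s2, hs2, hr2⟩ := frq_sgn (α' - round α')
  have e1 : |α - round α| = nd α := rfl
  have e2 : |α' - round α'| = nd α' := rfl
  rw [e1] at hr1
  rw [e2] at hr2
  have hσ : ((s1 * s2 : ℤ) : ℝ) = 1 ∨ ((s1 * s2 : ℤ) : ℝ) = -1 := by
    rcases hs1 with h | h <;> rcases hs2 with h' | h' <;> subst h <;> subst h' <;> simp
  have hσσ : ((s1 * s2 : ℤ) : ℝ) * s2 = s1 := by
    rcases hs1 with h | h <;> rcases hs2 with h' | h' <;> subst h <;> subst h' <;> simp
  have hs1' : |(s1 : ℝ)| = 1 := by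
    rcases hs1 with h | h <;> subst h <;> simp
  set σ : ℝ := ((s1 * s2 : ℤ) : ℝ) with hσd
  set k : ℤ := round α - s1 * s2 * round α' with hk
  set γ : ℝ := α - σ * α' - k with hγ
  have hγ1 : γ = s1 * (nd α - nd α') := by
    have hk' : (k : ℝ) = round α - σ * round α' := by rw [hk, hσd]; push_cast; ring
    have : γ = (α - round α) - σ * (α' - round α') := by rw [hγ, hk']; ring
    rw [this, hr1, hr2, ← mul_assoc, hσσ]
    ring
  have hγ2 : |γ| ≤ ζ := by
    rw [hγ1, abs_mul, hs1', one_mul]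
    have := hq 1 le_rfl hm
    simpa using this
  have key : ∀ q : ℕ, 1 ≤ q → q ≤ m →
      |nd ((q : ℝ) * (σ * α') + q * γ) - nd ((q : ℝ) * (σ * α'))| ≤ ζ := by
    intro q hq1 hqm
    have h := hq q hq1 hqm
    have ha : nd ((q : ℝ) * α) = nd ((q : ℝ) * (σ * α') + q * γ) := by
      rw [show (q : ℝ) * α = ((q : ℝ) * (σ * α') + q * γ) + ((q * k : ℤ) : ℝ) by
        rw [hγ]; push_cast; ring, nd_add_int]
    have hb : nd ((q : ℝ) * α') = nd ((q : ℝ) * (σ * α')) := by
      rw [show (q : ℝ) * (σ * α') = σ * (q * α') by ring, nd_pm hσ]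
    rw [ha, hb] at h
    exact h
  have claim : ∀ q : ℕ, 1 ≤ q → q ≤ m → |(q : ℝ) * γ| ≤ 2 * ζ := by
    intro q hq1
    induction q, hq1 using Nat.le_induction with
    | base => intro _; simp only [Nat.cast_one, one_mul]; linarith
    | succ q hq1 ih =>
      intro hqm
      have ih' := ih (by omega)
      have h3 : |((q + 1 : ℕ) : ℝ) * γ| ≤ |(q : ℝ) * γ| + |γ| := by
        rw [show ((q + 1 : ℕ) : ℝ) * γ = (q : ℝ) * γ + γ by push_cast; ring]
        exact abs_add_le _ _
      rcases lt_or_ge (6 * ζ) (nd (2 * (((q + 1 : ℕ) : ℝ) * (σ * α')))) with h | h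
      · have := frq_aff (by linarith) h (key (q + 1) (by omega) hqm)
        linarith
      · have h4 : 6 * ζ < nd (2 * ((q : ℝ) * (σ * α'))) := by
          have h5 : nd (2 * α') = nd (2 * (σ * α')) := by
            rw [show 2 * (σ * α') = σ * (2 * α') by ring, nd_pm hσ]
          have h6 := nd_sub_le (2 * (((q + 1 : ℕ) : ℝ) * (σ * α'))) (2 * ((q : ℝ) * (σ * α')))
          rw [show 2 * (((q + 1 : ℕ) : ℝ) * (σ * α')) - 2 * ((q : ℝ) * (σ * α')) =
            2 * (σ * α') by push_cast; ring, ← h5] at h6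
          linarith
        have := frq_aff (by linarith) h4 (key q hq1 (by omega))
        linarith
  refine ⟨σ, k, hσ, ?_⟩
  have hc := claim m hm le_rfl
  have hmp : (0 : ℝ) < m := by exact_mod_cast hm
  rw [abs_mul, abs_of_pos hmp] at hc
  rw [le_div_iff₀ hmp, mul_comm]
  exact hc

end Pool.Agent.H38.N4D
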