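import Pool.Agent.H6.N4D.TA

/-!
# Row PRI: a good prime number in every short block
-/

set_option autoImplicit false

open Finset Pool.Agent.H6.N4D

namespace Pool.Agent.H38.N4D

theorem pf_PRI (hSQR : T_SQR) (hWTS : T_WTS) (hSIZ : T_SIZ) : T_PRI := by
  intro M hM
  refine ⟨50 * M ^ 2, by nlinarith, ?_⟩
  intro K hK
  obtain ⟨X1, hX1⟩ := hSIZ
  obtain ⟨X2, hX2⟩ := hWTS.2.2 K hK
  refine ⟨max X1 X2, ?_⟩
  intro S hS hSK hX ε f hε0 hε1 hf hE y hy1 hy2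
  obtain ⟨hL, hP, -, -, -, -, -, -, -, -, -, hN, -⟩ := hX1 S hS (le_trans (le_max_left _ _) hX)
  have hP0 : 0 < S.P := by linarith
  have hPP : PP S.X = S.P := rfl
  have hP12 : 1 ≤ S.P ^ (1 / 2 : ℝ) := Real.one_le_rpow (by linarith) (by norm_num)
  have hPK : S.P ≤ S.P ^ K := by
    calc S.P = S.P ^ 1 := (pow_one _).symm
      _ ≤ S.P ^ K := pow_le_pow_right₀ (by linarith) hK
  have hy0 : 0 < y := lt_of_lt_of_le hP0 (hPK.trans hy1)
  have hyy : y ≤ y * S.P ^ (1 / 2 : ℝ) := by nlinarith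
  have hw := hX2 S.X (le_trans (le_max_right _ _) hX) y (by rw [hPP]; exact hy1)
    (by rw [hPP]; exact hyy.trans hy2)
  rw [hPP] at hw
  obtain ⟨hw1, hw2⟩ := hw
  set A := Pr y (y * S.P ^ (1 / 2 : ℝ)) with hA
  have hAQ : A ⊆ S.Q := by
    intro p hp
    rw [hA, mem_Pr (by positivity)] at hp
    unfold Par.Q
    rw [hSK, mem_Pr (by positivity)]
    exact ⟨lt_of_le_of_lt (hPK.trans hy1) hp.1, hp.2.1.trans hy2, hp.2.2⟩
  have hsq := (hSQR S M ε f hS (by linarith) hε0 hε1 hM hf hE).1 A hAQ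
  by_contra hc
  push Not at hc
  have hKpos : (0 : ℝ) < K := by exact_mod_cast hK
  have hwpos : 0 < ∑ p ∈ A, 1 / (p : ℝ) := lt_of_lt_of_le (by positivity) hw1
  have hne : A.Nonempty := by
    by_contra h
    rw [not_nonempty_iff_eq_empty] at h
    rw [h] at hwpos
    simp at hwpos
  have hlt : ∑ p ∈ A, 1 / (p : ℝ) * (50 * M ^ 2 * (K * ε) * S.N) <
      ∑ p ∈ A, 1 / (p : ℝ) * Asq S f (S.l p) := by
    apply sum_lt_sum_of_nonempty hne
    intro p hp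
    have hpp : (0 : ℝ) < p := by
      have h2 := hp
      rw [hA, mem_Pr (by positivity)] at h2
      exact lt_trans hy0 h2.1
    exact mul_lt_mul_of_pos_left (hc p hp) (by positivity)
  rw [← sum_mul] at hlt
  have h1 : 5 * M ^ 2 * ε * S.N ≤ (∑ p ∈ A, 1 / (p : ℝ)) * (50 * M ^ 2 * (K * ε) * S.N) := by
    calc 5 * M ^ 2 * ε * S.N = 1 / (10 * K : ℝ) * (50 * M ^ 2 * (K * ε) * S.N) := by
          field_simp; ring
      _ ≤ _ := mul_le_mul_of_nonneg_right hw1 (by positivity)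
  have h2 : (ε ^ 2 * ∑ p ∈ A, 1 / (p : ℝ) + 4 * M ^ 2 * ε) * S.N ≤ 5 * M ^ 2 * ε * S.N := by
    apply mul_le_mul_of_nonneg_right _ hN.le
    have h3 : ε ^ 2 * ∑ p ∈ A, 1 / (p : ℝ) ≤ ε ^ 2 * 1 :=
      mul_le_mul_of_nonneg_left hw2 (by positivity)
    have h4 : ε ^ 2 ≤ ε := by nlinarith
    have h5 : ε ≤ M ^ 2 * ε := by nlinarith [mul_le_mul hM hM (by norm_num) (by linarith)]
    nlinarith
  linarith

end Pool.Agent.H38.N4D
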