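import Pool.Agent.H6.N4D.TC

/-!
# Row SHW: overlapping windows
-/

set_option autoImplicit false

open Finset Pool.Agent.H6.N4D

namespace Pool.Agent.H38.N4D

lemma shw_exp {u : ℝ} (h0 : 0 ≤ u) (h1 : u ≤ 1 / 11) : Real.exp u ≤ 1 + 11 / 10 * u := by
  have h2 : 1 - u ≤ Real.exp (-u) := by linarith [Real.add_one_le_exp (-u)]
  have h3 : Real.exp u * Real.exp (-u) = 1 := by rw [← Real.exp_add]; simp
  have h4 : Real.exp u * (1 - u) ≤ 1 :=
    (mul_le_mul_of_nonneg_left h2 (Real.exp_pos _).le).trans h3.le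
  have h5 : 1 ≤ (1 + 11 / 10 * u) * (1 - u) := by nlinarith
  have h6 : 0 < 1 - u := by linarith
  exact le_of_mul_le_mul_right (h4.trans h5) h6

/-- the errors on the overlap are errors on one of the two windows -/
lemma shw_er (lam : ℕ → ℝ) (hlam : Lio lam) (θ φ θ' φ' : ℝ) (n n' Y Y' N : ℕ)
    (h1 : n ≤ n') (h2 : n' + N = n + Y) (h3 : Y ≤ Y') (A B : ℝ)
    (hA : ∀ s : Finset ℕ, (∀ m ∈ s, m ∈ Ioc n (n + Y) ∧
      lam m * Real.cos (2 * Real.pi * (θ * ((m : ℝ) - n) + φ)) ≤ 0) → (s.card : ℝ) ≤ A)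
    (hB : ∀ s : Finset ℕ, (∀ m ∈ s, m ∈ Ioc n' (n' + Y') ∧
      lam m * Real.cos (2 * Real.pi * (θ' * ((m : ℝ) - n') + φ')) ≤ 0) → (s.card : ℝ) ≤ B) :
    (er N θ (φ + θ * ((n' : ℝ) - n)) θ' φ' : ℝ) ≤ A + B := by
  classical
  set s1 := (Ioc n (n + Y)).filter fun m : ℕ =>
    lam m * Real.cos (2 * Real.pi * (θ * ((m : ℝ) - n) + φ)) ≤ 0 with hs1
  set s2 := (Ioc n' (n' + Y')).filter fun m : ℕ =>
    lam m * Real.cos (2 * Real.pi * (θ' * ((m : ℝ) - n') + φ')) ≤ 0 with hs2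
  have hA' : (s1.card : ℝ) ≤ A := hA s1 (fun m hm => by rw [hs1, mem_filter] at hm; exact hm)
  have hB' : (s2.card : ℝ) ≤ B := hB s2 (fun m hm => by rw [hs2, mem_filter] at hm; exact hm)
  have h : er N θ (φ + θ * ((n' : ℝ) - n)) θ' φ' ≤ (s1 ∪ s2).card := by
    unfold er
    apply card_le_card_of_injOn (fun j => n' + j)
    · intro j hj
      rw [mem_coe, mem_filter, mem_Icc] at hj
      obtain ⟨⟨hj1, hj2⟩, hj3⟩ := hj
      rw [mem_coe, mem_union]
      change n' + j ∈ s1 ∨ n' + j ∈ s2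
      by_contra hc
      rw [not_or] at hc
      obtain ⟨hc1, hc2⟩ := hc
      rw [hs1, mem_filter, mem_Ioc, not_and] at hc1
      rw [hs2, mem_filter, mem_Ioc, not_and] at hc2
      have p1 := hc1 ⟨by omega, by omega⟩
      have p2 := hc2 ⟨by omega, by omega⟩
      rw [not_le] at p1 p2
      push_cast at p1 p2
      rw [show θ * ((n' : ℝ) + j - n) + φ = θ * j + (φ + θ * ((n' : ℝ) - n)) by ring] at p1
      rw [show θ' * ((n' : ℝ) + j - n') + φ' = θ' * j + φ' by ring] at p2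
      have p3 := mul_pos p1 p2
      have p4 : lam (n' + j) * lam (n' + j) = 1 := by
        rcases hlam.pm (n' + j) with h | h <;> rw [h] <;> norm_num
      nlinarith [p3, p4, hj3]
    · intro a _ b _ hab
      simpa using hab
  have h' : (er N θ (φ + θ * ((n' : ℝ) - n)) θ' φ' : ℝ) ≤ s1.card + s2.card := by
    have := h.trans (card_union_le s1 s2)
    exact_mod_cast this
  linarith

theorem pf_SHW (hRIG : T_RIG) (hSIZ : T_SIZ) : T_SHW := by
  intro ε₀ hε₀
  obtain ⟨Q, hQ⟩ := hRIG (ε₀ / 2) (by linarith)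
  refine ⟨Q, ?_⟩
  intro η hη
  obtain ⟨e', N0, he', hR⟩ := hQ η hη
  obtain ⟨X1, hX1⟩ := hSIZ
  obtain ⟨X2, hX2⟩ := LL_large (2 * N0)
  refine ⟨e' / 8, max X1 X2, by linarith, ?_⟩
  intro S lam t w θ φ θ' φ' hS hX hlam ht htw hw g1 g2
  obtain ⟨hL, hP, -, hrho, -, -, -, -, hI, -, -, -, -⟩ := hX1 S hS (le_trans (le_max_left _ _) hX)
  have hL2 : 2 * (N0 : ℝ) ≤ S.L := hX2 S.X (le_trans (le_max_right _ _) hX)
  have hr0 := hS.hr0
  have hh := hS.hh
  obtain ⟨ha1, ha2, ha3, ha4⟩ := hI t ht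
  obtain ⟨hb1, hb2, hb3, hb4⟩ := hI (t + w) htw
  set x := S.x t with hx
  set x' := S.x (t + w) with hx'
  have hx0 : 0 < x := Par.x_pos t
  -- the size of rho * x
  have hPL : S.L + 1 ≤ S.P := by
    rw [← Par.log_P]
    linarith [Real.log_le_sub_one_of_pos (show 0 < S.P by linarith)]
  have hPK : S.P ≤ S.P ^ (100 * S.K) := by
    calc S.P = S.P ^ 1 := (pow_one _).symm
      _ ≤ _ := pow_le_pow_right₀ (by linarith) (by have := hS.hK; omega)
  have hrx : 100 ≤ S.rho * x := by linarith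
  have hrN : 2 * (N0 : ℝ) ≤ S.rho * x := by linarith
  -- the growth
  have hxx : x' = x * Real.exp (S.h * w) := by
    rw [hx', hx, Par.x_add]; push_cast; rfl
  have hu0 : 0 ≤ S.h * w := by positivity
  have hu1 : S.h * w ≤ S.rho / 4 := by linarith
  have hex : Real.exp (S.h * w) ≤ 1 + 11 / 10 * (S.rho / 4) := by
    refine (shw_exp hu0 (by linarith)).trans ?_
    linarith
  have hx'1 : x' ≤ x + 11 / 40 * (S.rho * x) := by
    rw [hxx]
    have := mul_le_mul_of_nonneg_left hex hx0.le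
    nlinarith
  have hx'2 : x ≤ x' := by
    rw [hxx]
    have : 1 ≤ Real.exp (S.h * w) := Real.one_le_exp hu0
    nlinarith
  -- natural numbers
  set n := S.n t with hn
  set n' := S.n (t + w) with hn'
  have hnn : n ≤ n' := by
    rw [hn, hn']; unfold Par.n; exact Nat.floor_le_floor hx'2
  set Y := ⌊S.rho * (n : ℝ)⌋₊ with hY
  set Y' := ⌊S.rho * (n' : ℝ)⌋₊ with hY'
  have hYY : Y ≤ Y' := by
    rw [hY, hY']
    apply Nat.floor_le_floor
    have : (n : ℝ) ≤ n' := by exact_mod_cast hnn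
    exact mul_le_mul_of_nonneg_left this hr0.le
  have hY1 : (Y : ℝ) ≤ S.rho * x := by
    refine (Nat.floor_le (by positivity)).trans ?_
    exact mul_le_mul_of_nonneg_left ha4 hr0.le
  have hY2 : S.rho * x - 2 < Y := by
    have h1 := Nat.lt_floor_add_one (S.rho * (n : ℝ))
    rw [← hY] at h1
    have h2 : S.rho * (x - 1) ≤ S.rho * n := mul_le_mul_of_nonneg_left ha3.le hr0.le
    nlinarith
  have hY3 : (Y' : ℝ) ≤ 11 / 10 * (S.rho * x) := by
    refine (Nat.floor_le (by positivity)).trans ?_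
    have h1 : S.rho * (n' : ℝ) ≤ S.rho * (x + 11 / 40 * (S.rho * x)) :=
      mul_le_mul_of_nonneg_left (hb4.trans hx'1) hr0.le
    have h2 : S.rho * (S.rho * x) ≤ 1 / 100 * (S.rho * x) :=
      mul_le_mul_of_nonneg_right hrho (by positivity)
    nlinarith
  have hd : (n' : ℝ) - n ≤ 11 / 40 * (S.rho * x) + 1 := by linarith
  have hle : n' ≤ n + Y := by
    have : (n' : ℝ) ≤ ((n + Y : ℕ) : ℝ) := by push_cast; linarith
    exact_mod_cast this
  obtain ⟨N, hN⟩ := Nat.exists_eq_add_of_le hle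
  have hNr : (N : ℝ) = n + Y - n' := by
    have : ((n + Y : ℕ) : ℝ) = ((n' + N : ℕ) : ℝ) := by rw [hN]
    push_cast at this
    linarith
  have hN2 : S.rho * x / 2 ≤ N := by rw [hNr]; linarith
  have hN0 : N0 ≤ N := by
    have : (N0 : ℝ) ≤ N := by linarith
    exact_mod_cast this
  -- the errors
  have herr := shw_er lam hlam θ φ θ' φ' n n' Y Y' N hnn hN.symm hYY
    (e' / 8 * Y) (e' / 8 * Y') ?_ ?_
  rotate_left
  · intro s hs
    refine le_trans ?_ g1.2
    rw [Nat.cast_le]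
    apply card_le_card
    intro m hm
    rw [mem_filter]
    exact hs m hm
  · intro s hs
    refine le_trans ?_ g2.2
    rw [Nat.cast_le]
    apply card_le_card
    intro m hm
    rw [mem_filter]
    exact hs m hm
  have herr2 : (er N θ (φ + θ * ((n' : ℝ) - n)) θ' φ' : ℝ) ≤ e' * N := by
    refine herr.trans ?_
    have h1 : (Y : ℝ) + Y' ≤ 8 * N := by linarith
    nlinarith
  obtain ⟨τ, hτ, h1, h2⟩ := hR N hN0 θ (φ + θ * ((n' : ℝ) - n)) θ' φ' g2.1 herr2
  refine ⟨τ, hτ, h1.trans ?_, h2.trans (by linarith)⟩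
  have hNp : (0 : ℝ) < N := by linarith
  rw [div_le_div_iff₀ hNp (by positivity)]
  nlinarith

end Pool.Agent.H38.N4D
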